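import Pool.Agent.W2helper86.MF.Flow

/-!
# Shift and add: a circuit without downward traffic
-/

set_option autoImplicit false

open Finset

namespace Pool.Agent.W2helper86.MF

open Circuit

/-! ### Circuits given by lists of sources -/

section build

variable {n : ℕ} {G : Type} [DecidableEq G]

/-- The circuit whose gate `g` applies the function `F g` to the values of the vertices in the list
`srcs g`. -/
def build (srcs : G → List (Vertex n G)) (F : G → List Bool → Bool) (rank : G → ℕ)
    (hrank : ∀ g h, Sum.inr (Sum.inr h) ∈ srcs g → rank h < rank g) (out : Fin n → Vertex n G) :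
    Circuit n G where
  preds g := (srcs g).toFinset
  op g f := F g ((srcs g).map fun u => if h : u ∈ (srcs g).toFinset then f ⟨u, h⟩ else false)
  rank := rank
  acyclic g h hh := hrank g h (List.mem_toFinset.1 hh)
  out := out

theorem gateValue_build (srcs : G → List (Vertex n G)) (F : G → List Bool → Bool) (rank : G → ℕ)
    (hrank : ∀ g h, Sum.inr (Sum.inr h) ∈ srcs g → rank h < rank g) (out : Fin n → Vertex n G)
    (x y : ℕ) (g : G) :
    (build srcs F rank hrank out).value x y (Sum.inr (Sum.inr g)) =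
      F g ((srcs g).map ((build srcs F rank hrank out).value x y)) := by
  show (build srcs F rank hrank out).gateValue x y g = _
  rw [gateValue_eq]
  show F g _ = _
  congr 1
  apply List.map_congr_left
  intro u hu
  rw [dif_pos (List.mem_toFinset.2 hu)]

end build

/-! ### The circuit -/

/-- The gates of the shift-and-add circuit. -/
abbrev Gt (n L : ℕ) : Type := Fin (L + 1) × Fin n × Bool

variable {n L : ℕ}

/-- The vertex computing bit `i` of the sum of the first `j` shifted copies. -/
def vS (j : Fin (L + 1)) (i : Fin n) : Vertex n (Gt n L) := Sum.inr (Sum.inr (j, i, true))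

/-- The vertex computing the carry into place `i` of the addition number `j`. -/
def vC (j : Fin (L + 1)) (i : Fin n) : Vertex n (Gt n L) := Sum.inr (Sum.inr (j, i, false))

/-- The vertex computing bit `i` of the copy shifted by `2 ^ j` places. -/
def vX (j : ℕ) (i : Fin n) : Vertex n (Gt n L) :=
  if 2 ^ j ≤ (i : ℕ) then Sum.inl ⟨i - 2 ^ j, (Nat.sub_le _ _).trans_lt i.2⟩ else vC 0 i

/-- The sources of a gate. -/
def srcs (g : Gt n L) : List (Vertex n (Gt n L)) :=
  if g.1.val = 0 then [] else
    if g.2.2 then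
      [vS ⟨g.1.val - 1, by omega⟩ g.2.1, vX (g.1.val - 1) g.2.1, vC g.1 g.2.1]
    else if g.2.1.val = 0 then [] else
      [vS ⟨g.1.val - 1, by omega⟩ ⟨g.2.1.val - 1, by omega⟩,
        vX (g.1.val - 1) ⟨g.2.1.val - 1, by omega⟩, vC g.1 ⟨g.2.1.val - 1, by omega⟩]

/-- The function computed by a gate: exclusive or, or majority. -/
def comb (b : Bool) : List Bool → Bool
  | [x, y, z] => if b then (x ^^ (y ^^ z)) else Bool.atLeastTwo x y z
  | _ => false

/-- The rank of a gate. -/
def rk (g : Gt n L) : ℕ := g.1.val * (2 * n) + (2 * g.2.1.val + if g.2.2 then 1 else 0)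

theorem rk_vX {j : ℕ} {i : Fin n} {h : Gt n L} (hh : Sum.inr (Sum.inr h) = (vX j i : Vertex n (Gt n L))) :
    h = (0, i, false) := by
  unfold vX at hh
  split_ifs at hh
  · unfold vC at hh
    simpa using hh

theorem srcs_rank (g h : Gt n L) (hh : Sum.inr (Sum.inr h) ∈ srcs g) : rk h < rk g := by
  obtain ⟨j, i, b⟩ := g
  unfold srcs at hh
  have hi := i.2
  simp only at hh
  split_ifs at hh with h1 h2 h3
  · simp at hh
  · obtain ⟨d, hd⟩ := Nat.exists_eq_succ_of_ne_zero h1
    simp only [List.mem_cons, List.not_mem_nil, or_false] at hh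
    subst h2
    rcases hh with hh | hh | hh
    · simp only [vS, Sum.inr.injEq] at hh
      subst hh
      simp only [rk, hd, Nat.succ_eq_add_one, Nat.add_sub_cancel, if_true]
      nlinarith
    · rw [rk_vX hh]
      simp only [rk, hd, Nat.succ_eq_add_one, Fin.val_zero, if_true, Bool.false_eq_true, if_false]
      nlinarith
    · simp only [vC, Sum.inr.injEq] at hh
      subst hh
      simp [rk]
  · simp at hh
  · obtain ⟨d, hd⟩ := Nat.exists_eq_succ_of_ne_zero h1
    obtain ⟨e, he⟩ := Nat.exists_eq_succ_of_ne_zero h3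
    simp only [List.mem_cons, List.not_mem_nil, or_false] at hh
    have hb : b = false := by simpa using h2
    subst hb
    rcases hh with hh | hh | hh
    · simp only [vS, Sum.inr.injEq] at hh
      subst hh
      simp only [rk, hd, he, Nat.succ_eq_add_one, Nat.add_sub_cancel, if_true]
      simp only [Bool.false_eq_true, if_false]
      nlinarith
    · rw [rk_vX hh]
      simp only [rk, hd, he, Nat.succ_eq_add_one, Fin.val_zero, Nat.add_sub_cancel]
      simp only [Bool.false_eq_true, if_false]
      nlinarith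
    · simp only [vC, Sum.inr.injEq] at hh
      subst hh
      simp only [rk, he, Nat.succ_eq_add_one, Nat.add_sub_cancel]
      simp only [Bool.false_eq_true, if_false]
      omega

/-- The circuit with `L` additions. -/
def shiftAdd (n L : ℕ) : Circuit n (Gt n L) :=
  build srcs (fun g => comb g.2.2) rk srcs_rank fun i => vS (Fin.last L) i

/-- The columns of the gates. -/
def colG (g : Gt n L) : ℕ := g.2.1.val


theorem value_vC_zero (x y : ℕ) (i : Fin n) : (shiftAdd n L).value x y (vC 0 i) = false := by
  unfold shiftAdd vC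
  rw [gateValue_build]
  simp [srcs, comb]

theorem value_vS_zero (x y : ℕ) (i : Fin n) : (shiftAdd n L).value x y (vS 0 i) = false := by
  unfold shiftAdd vS
  rw [gateValue_build]
  simp [srcs, comb]

theorem value_vX (x y : ℕ) (j : ℕ) (i : Fin n) :
    (shiftAdd n L).value x y (vX j i) = (x * 2 ^ 2 ^ j).testBit i := by
  rw [Nat.testBit_mul_two_pow]
  unfold vX
  split_ifs with h
  · simp [value, h]
  · rw [value_vC_zero]
    simp [h]

theorem value_vS_succ (x y : ℕ) (j : Fin (L + 1)) (j' : Fin (L + 1)) (hj : j.val = j'.val + 1)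
    (i : Fin n) : (shiftAdd n L).value x y (vS j i) =
      ((shiftAdd n L).value x y (vS j' i) ^^ ((shiftAdd n L).value x y (vX j'.val i) ^^
        (shiftAdd n L).value x y (vC j i))) := by
  conv_lhs => unfold shiftAdd vS
  rw [gateValue_build]
  have h2 : j.val - 1 = j'.val := by omega
  have h3 : srcs (j, i, true) = [vS j' i, vX j'.val i, vC j i] := by
    unfold srcs
    rw [if_neg (show ¬ j.val = 0 by omega), if_pos rfl]
    simp only [h2]
  rw [h3]
  rfl

theorem value_vC_succ (x y : ℕ) (j : Fin (L + 1)) (j' : Fin (L + 1)) (hj : j.val = j'.val + 1)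
    (i i' : Fin n) (hi : i.val = i'.val + 1) : (shiftAdd n L).value x y (vC j i) =
      Bool.atLeastTwo ((shiftAdd n L).value x y (vS j' i')) ((shiftAdd n L).value x y (vX j'.val i'))
        ((shiftAdd n L).value x y (vC j i')) := by
  conv_lhs => unfold shiftAdd vC
  rw [gateValue_build]
  have h2 : j.val - 1 = j'.val := by omega
  have h4 : (⟨i.val - 1, by omega⟩ : Fin n) = i' := Fin.ext (by simp; omega)
  have h3 : srcs (j, i, false) = [vS j' i', vX j'.val i', vC j i'] := by
    unfold srcs
    rw [if_neg (show ¬ j.val = 0 by omega), if_neg (by simp), if_neg (show ¬ i.val = 0 by omega)]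
    simp only [h2, h4]
  rw [h3]
  rfl

theorem value_vC_first (x y : ℕ) (j : Fin (L + 1)) (i : Fin n) (hi : i.val = 0) :
    (shiftAdd n L).value x y (vC j i) = false := by
  unfold shiftAdd vC
  rw [gateValue_build]
  simp [srcs, comb, hi]

theorem value_vC (x y : ℕ) (j : Fin (L + 1)) (j' : Fin (L + 1)) (hj : j.val = j'.val + 1) (A : ℕ)
    (hA : ∀ i : Fin n, (shiftAdd n L).value x y (vS j' i) = A.testBit i) :
    ∀ k : ℕ, ∀ i : Fin n, i.val = k → (shiftAdd n L).value x y (vC j i) =
      BitVec.carry k (BitVec.ofNat n A) (BitVec.ofNat n (x * 2 ^ 2 ^ j'.val)) false := by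
  intro k
  induction k with
  | zero =>
    intro i hi
    rw [value_vC_first x y j i hi, BitVec.carry_zero]
  | succ k ih =>
    intro i hi
    have hk : k < n := by have := i.2; omega
    rw [value_vC_succ x y j j' hj i ⟨k, hk⟩ hi, BitVec.carry_succ, ih ⟨k, hk⟩ rfl, hA, value_vX,
      BitVec.getLsbD_ofNat, BitVec.getLsbD_ofNat]
    simp only [hk, decide_true, Bool.true_and]

theorem value_vS (x y : ℕ) : ∀ d : ℕ, ∀ j : Fin (L + 1), j.val = d → ∀ i : Fin n,
    (shiftAdd n L).value x y (vS j i) = (x * ∑ t ∈ range d, 2 ^ 2 ^ t).testBit i := by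
  intro d
  induction d with
  | zero =>
    intro j hj i
    have : j = 0 := Fin.ext hj
    rw [this, value_vS_zero]
    simp
  | succ d ih =>
    intro j hj i
    have hd : d < L + 1 := by have := j.2; omega
    have h1 := ih ⟨d, hd⟩ rfl
    rw [value_vS_succ x y j ⟨d, hd⟩ hj i, value_vC x y j ⟨d, hd⟩ hj _ h1 i i rfl, h1, value_vX,
      sum_range_succ, mul_add]
    have h2 : (x * ∑ t ∈ range d, 2 ^ 2 ^ t + x * 2 ^ 2 ^ d).testBit i =
        (BitVec.ofNat n (x * ∑ t ∈ range d, 2 ^ 2 ^ t + x * 2 ^ 2 ^ d)).getLsbD i := by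
      rw [BitVec.getLsbD_ofNat]
      simp [i.2]
    rw [h2, BitVec.ofNat_add, BitVec.getLsbD_add i.2, BitVec.getLsbD_ofNat, BitVec.getLsbD_ofNat]
    simp [i.2]

theorem multiplies_shiftAdd (n x : ℕ) : (shiftAdd n (Nat.clog 2 n)).Multiplies x (sparse n) := by
  intro i
  exact value_vS x (sparse n) (Nat.clog 2 n) (Fin.last _) rfl i

theorem column_vX (j : ℕ) (i : Fin n) : column (colG (L := L)) (vX j i) ≤ i := by
  unfold vX
  split_ifs
  · exact Nat.sub_le _ _
  · exact le_rfl

theorem column_srcs (g : Gt n L) : ∀ u ∈ srcs g, column colG u ≤ colG g := by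
  intro u hu
  unfold srcs at hu
  split_ifs at hu with h1 h2 h3
  · simp at hu
  · simp only [List.mem_cons, List.not_mem_nil, or_false] at hu
    rcases hu with rfl | rfl | rfl
    · exact le_rfl
    · exact column_vX _ _
    · exact le_rfl
  · simp at hu
  · simp only [List.mem_cons, List.not_mem_nil, or_false] at hu
    rcases hu with rfl | rfl | rfl
    · exact Nat.sub_le _ _
    · exact (column_vX _ _).trans (Nat.sub_le _ _)
    · exact Nat.sub_le _ _

theorem down_shiftAdd (p : ℕ) : (shiftAdd n L).down colG p = ∅ := by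
  ext u
  simp only [Set.mem_empty_iff_false, iff_false]
  rintro ⟨h1, ⟨g, h2, h3⟩ | ⟨i, rfl, h3⟩⟩
  · have := column_srcs g u (List.mem_toFinset.1 h2)
    omega
  · have : column (colG (L := L)) ((shiftAdd n L).out i) = i := rfl
    omega

theorem card_srcs (g : Gt n L) : ((shiftAdd n L).preds g).card ≤ 3 := by
  refine (List.toFinset_card_le _).trans ?_
  unfold srcs
  split_ifs <;> simp

theorem card_srcs_zero (i : Fin n) (b : Bool) : ((shiftAdd n L).preds (0, i, b)).card = 0 := by
  show (srcs (0, i, b)).toFinset.card = 0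
  simp [srcs]

theorem wires_shiftAdd : (shiftAdd n L).wires ≤ 6 * n * L := by
  unfold wires
  rw [Fintype.sum_prod_type, Fin.sum_univ_succ]
  have h0 : ∑ y : Fin n × Bool, ((shiftAdd n L).preds (0, y)).card = 0 :=
    sum_eq_zero fun y _ => card_srcs_zero y.1 y.2
  rw [h0, zero_add]
  calc _ ≤ ∑ j : Fin L, ∑ y : Fin n × Bool, 3 := sum_le_sum fun j _ => sum_le_sum fun y _ =>
        card_srcs _
    _ = 6 * n * L := by
      simp
      ring

/-- **The upper bound.** -/
theorem upper (n : ℕ) : ∃ (G : Type) (_ : Fintype G) (C : Circuit n G) (col : G → ℕ),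
    (∀ g, (C.preds g).card ≤ 3) ∧ C.wires ≤ 6 * n * Nat.clog 2 n ∧ C.traffic col = 0 ∧
      ∀ x, C.Multiplies x (sparse n) :=
  ⟨Gt n (Nat.clog 2 n), inferInstance, shiftAdd n (Nat.clog 2 n), colG, card_srcs, wires_shiftAdd,
    by simp [traffic, down_shiftAdd], multiplies_shiftAdd n⟩

end Pool.Agent.W2helper86.MF
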