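import Pool.Agent.W2helper86.MF.Flow

/-!
# Multiplication by the sparse constant

The segments of the product of `w + 2 ^ a u` and the constant.
-/

set_option autoImplicit false

open Finset

namespace Pool.Agent.W2helper86.MF

theorem sum_lt (k : ℕ) : ∑ j ∈ range k, 2 ^ 2 ^ j < 2 ^ 2 ^ k := by
  induction k with
  | zero => simp
  | succ k ih =>
    rw [sum_range_succ]
    have h1 : (2 : ℕ) ^ (2 ^ k + 1) ≤ 2 ^ 2 ^ (k + 1) := by
      apply Nat.pow_le_pow_right (by norm_num)
      rw [pow_succ]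
      have := Nat.one_le_two_pow (n := k)
      omega
    rw [pow_succ] at h1
    omega

theorem sparse_split (n j : ℕ) (hj : j < Nat.clog 2 n) :
    ∃ y M : ℕ, y < 2 ^ 2 ^ j ∧ sparse n = (y + 2 ^ 2 ^ j) + 2 ^ (2 * 2 ^ j) * M := by
  obtain ⟨d, hd⟩ := Nat.exists_eq_add_of_lt hj
  have h : ∀ d : ℕ, ∃ M : ℕ, ∑ i ∈ range (j + d + 1), 2 ^ 2 ^ i =
      (∑ i ∈ range j, 2 ^ 2 ^ i + 2 ^ 2 ^ j) + 2 ^ (2 * 2 ^ j) * M := by
    intro d
    induction d with
    | zero => exact ⟨0, by rw [Nat.add_zero, sum_range_succ]; simp⟩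
    | succ d ih =>
      obtain ⟨M, hM⟩ := ih
      have h1 : 2 * 2 ^ j ≤ 2 ^ (j + d + 1) := by
        rw [← pow_succ']
        exact Nat.pow_le_pow_right (by norm_num) (by omega)
      obtain ⟨e, he⟩ := Nat.exists_eq_add_of_le h1
      refine ⟨M + 2 ^ e, ?_⟩
      rw [← Nat.add_assoc j d 1, sum_range_succ, hM, he, pow_add 2 (2 * 2 ^ j) e]
      ring
  obtain ⟨M, hM⟩ := h d
  refine ⟨∑ i ∈ range j, 2 ^ 2 ^ i, M, sum_lt j, ?_⟩
  unfold sparse
  rw [hd, hM]

theorem two_to_one (n j a w : ℕ) (hj : j < Nat.clog 2 n) (U : Finset ℕ)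
    (hU : ∀ u ∈ U, u < 2 ^ 2 ^ j) :
    U.card ≤ 2 * (U.image fun u => seg ((w + 2 ^ a * u) * sparse n) (a + 2 ^ j) (2 ^ j)).card := by
  obtain ⟨y, M, hy, hs⟩ := sparse_split n j hj
  set ℓ := 2 ^ j with hℓ
  have hℓ1 : 1 ≤ ℓ := Nat.one_le_two_pow
  set L := 2 ^ ℓ with hL
  have hL2 : 2 ≤ L := by
    calc 2 = 2 ^ 1 := rfl
      _ ≤ L := Nat.pow_le_pow_right (by norm_num) hℓ1
  have hLpos : 0 < L := by omega
  set Y := y + L with hY
  set P := 2 ^ (a + ℓ) with hP
  have hPpos : 0 < P := by positivity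
  have hPa : P = 2 ^ a * L := by rw [hP, pow_add]
  let g : ℕ → ℕ := fun u => (w * sparse n + 2 ^ a * u * Y) / P
  have hg : ∀ u, seg ((w + 2 ^ a * u) * sparse n) (a + ℓ) ℓ = g u % L := by
    intro u
    unfold seg
    have h1 : (w + 2 ^ a * u) * sparse n = (w * sparse n + 2 ^ a * u * Y) + P * (L * (u * M)) := by
      have h2 : (w + 2 ^ a * u) * sparse n = w * sparse n + 2 ^ a * u * sparse n := by ring
      rw [h2]
      nth_rewrite 2 [hs]
      rw [hPa, show (2 : ℕ) ^ (2 * ℓ) = L * L by rw [two_mul, pow_add]]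
      ring
    rw [h1, Nat.add_mul_div_left _ _ hPpos, Nat.add_mul_mod_self_left]
  have hmono : ∀ u u', u ≤ u' → g u + (u' - u) ≤ g u' := by
    intro u u' huu'
    obtain ⟨d, rfl⟩ := Nat.exists_eq_add_of_le huu'
    have h1 : w * sparse n + 2 ^ a * u * Y + P * d ≤ w * sparse n + 2 ^ a * (u + d) * Y := by
      have h2 : P * d ≤ 2 ^ a * d * Y := by
        rw [hPa]
        calc 2 ^ a * L * d = 2 ^ a * d * L := by ring
          _ ≤ 2 ^ a * d * Y := Nat.mul_le_mul_left _ (by omega)
      calc w * sparse n + 2 ^ a * u * Y + P * d ≤ w * sparse n + 2 ^ a * u * Y + 2 ^ a * d * Y := by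
            omega
        _ = _ := by ring
    have h3 := Nat.div_le_div_right (c := P) h1
    rw [Nat.add_mul_div_left _ _ hPpos] at h3
    simpa using h3
  have hrange : ∀ u, u < L → g u < g 0 + 2 * L := by
    intro u hu
    rw [Nat.div_lt_iff_lt_mul hPpos]
    have h0 : w * sparse n < (g 0 + 1) * P := by
      have h1 : g 0 = w * sparse n / P := by simp [g]
      rw [h1, ← Nat.div_lt_iff_lt_mul hPpos]
      omega
    have h2 : 2 ^ a * u * Y + P ≤ 2 * L * P := by
      rw [hPa]
      have h3 : u * Y + L ≤ 2 * L * L := by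
        have h4 : u + 1 ≤ L := hu
        have h5 : Y ≤ 2 * L := by omega
        have h6 : (u + 1) * Y ≤ L * (2 * L) := Nat.mul_le_mul h4 h5
        have h7 : L ≤ Y := by omega
        nlinarith
      calc 2 ^ a * u * Y + 2 ^ a * L = 2 ^ a * (u * Y + L) := by ring
        _ ≤ 2 ^ a * (2 * L * L) := Nat.mul_le_mul_left _ h3
        _ = 2 * L * (2 ^ a * L) := by ring
    calc w * sparse n + 2 ^ a * u * Y < (g 0 + 1) * P + 2 ^ a * u * Y := by omega
      _ = g 0 * P + (2 ^ a * u * Y + P) := by ring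
      _ ≤ g 0 * P + 2 * L * P := by omega
      _ = (g 0 + 2 * L) * P := by ring
  apply card_le_mul_card_image
  intro z _
  have hle : (U.filter fun u => seg ((w + 2 ^ a * u) * sparse n) (a + ℓ) ℓ = z).card ≤
      (range 2).card := by
    apply card_le_card_of_injOn (fun u => (g u - g 0) / L)
    · intro u hu
      have hu' := mem_filter.1 (mem_coe.1 hu)
      have h1 := hrange u (hU u hu'.1)
      have h2 := hmono 0 u (by omega)
      simp only [coe_range, Set.mem_Iio]
      rw [Nat.div_lt_iff_lt_mul hLpos]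
      omega
    · intro u hu u' hu' h
      have hu1 := mem_filter.1 (mem_coe.1 hu)
      have hu2 := mem_filter.1 (mem_coe.1 hu')
      have h1 := hmono 0 u (by omega)
      have h2 := hmono 0 u' (by omega)
      simp only at h
      have hz : g u % L = g u' % L := by rw [← hg, ← hg, hu1.2, hu2.2]
      have hz' : (g u - g 0) % L = (g u' - g 0) % L := by
        have e1 : g u = (g u - g 0) + g 0 := by omega
        have e2 : g u' = (g u' - g 0) + g 0 := by omega
        have h3 : (g u - g 0) + g 0 ≡ (g u' - g 0) + g 0 [MOD L] := by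
          rw [← e1, ← e2]; exact hz
        exact Nat.ModEq.add_right_cancel' _ h3
      have h4 : g u - g 0 = g u' - g 0 := by
        rw [← Nat.div_add_mod (g u - g 0) L, ← Nat.div_add_mod (g u' - g 0) L, h, hz']
      have h5 : g u = g u' := by omega
      by_contra hne
      rcases Nat.lt_or_gt_of_ne hne with hlt | hlt
      · have := hmono u u' (by omega); omega
      · have := hmono u' u (by omega); omega
  simpa using hle

end Pool.Agent.W2helper86.MF
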