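import Pool.Agent.W2helper86.MF.Arith

/-!
# The cut between two adjacent intervals of columns is large
-/

set_option autoImplicit false

open Finset

namespace Pool.Agent.W2helper86.MF

open Circuit

variable {n : ℕ} {G : Type}

theorem decomp (x a ℓ : ℕ) :
    x = (x % 2 ^ a + 2 ^ (a + ℓ) * (x / 2 ^ (a + ℓ))) + 2 ^ a * (x / 2 ^ a % 2 ^ ℓ) := by
  have h1 : x / 2 ^ (a + ℓ) = x / 2 ^ a / 2 ^ ℓ := by rw [pow_add, Nat.div_div_eq_div_mul]
  rw [h1]
  have h2 := Nat.div_add_mod x (2 ^ a)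
  have h3 := Nat.div_add_mod (x / 2 ^ a) (2 ^ ℓ)
  have h4 : x = 2 ^ a * (2 ^ ℓ * (x / 2 ^ a / 2 ^ ℓ) + x / 2 ^ a % 2 ^ ℓ) + x % 2 ^ a := by
    rw [h3, h2]
  nth_rewrite 1 [h4]
  rw [pow_add]
  ring

theorem cut_ge [Finite G] (C : Circuit n G) (col : G → ℕ) (q j a : ℕ) (hj : j < Nat.clog 2 n)
    (hn : a + 2 ^ j + 2 ^ j ≤ n) (S : Finset ℕ)
    (hS : ∀ x ∈ S, x < 2 ^ n ∧ C.Multiplies x (sparse n)) (hcard : 2 ^ n ≤ 2 ^ q * S.card) :
    2 ^ j ≤ q + 1 + (cut C col a (a + 2 ^ j) (a + 2 ^ j + 2 ^ j)).ncard := by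
  classical
  set ℓ := 2 ^ j with hℓ
  rcases Nat.lt_or_ge ℓ q with hq | hq
  · omega
  let κ : ℕ → ℕ := fun x => x % 2 ^ a + 2 ^ a * (x / 2 ^ (a + ℓ))
  have hκ1 : ∀ x, κ x % 2 ^ a = x % 2 ^ a := by
    intro x
    simp only [κ]
    rw [Nat.add_mul_mod_self_left, Nat.mod_mod]
  have hκ2 : ∀ x, κ x / 2 ^ a = x / 2 ^ (a + ℓ) := by
    intro x
    simp only [κ]
    rw [Nat.add_mul_div_left _ _ (by positivity),
      Nat.div_eq_of_lt (Nat.mod_lt _ (by positivity)), zero_add]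
  have hmaps : ∀ x ∈ S, κ x ∈ range (2 ^ (n - ℓ)) := by
    intro x hx
    rw [mem_range]
    have h1 := (hS x hx).1
    have h2 : x / 2 ^ (a + ℓ) < 2 ^ (n - (a + ℓ)) := by
      rw [Nat.div_lt_iff_lt_mul (by positivity), ← pow_add]
      have : n - (a + ℓ) + (a + ℓ) = n := by omega
      rwa [this]
    have h3 : κ x < 2 ^ a * 2 ^ (n - (a + ℓ)) := by
      calc κ x < 2 ^ a + 2 ^ a * (x / 2 ^ (a + ℓ)) :=
            Nat.add_lt_add_right (Nat.mod_lt _ (by positivity)) _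
        _ = 2 ^ a * (x / 2 ^ (a + ℓ) + 1) := by ring
        _ ≤ 2 ^ a * 2 ^ (n - (a + ℓ)) := Nat.mul_le_mul_left _ h2
    rw [← pow_add] at h3
    have : a + (n - (a + ℓ)) = n - ℓ := by omega
    rwa [this] at h3
  have hcard' : (range (2 ^ (n - ℓ))).card * 2 ^ (ℓ - q) ≤ S.card := by
    rw [card_range, ← pow_add]
    have h1 : n - ℓ + (ℓ - q) + q = n := by omega
    have h2 : 2 ^ q * 2 ^ (n - ℓ + (ℓ - q)) ≤ 2 ^ q * S.card := by
      rw [← pow_add, Nat.add_comm q, h1]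
      exact hcard
    exact Nat.le_of_mul_le_mul_left h2 (by positivity)
  obtain ⟨k, -, hk⟩ := exists_le_card_fiber_of_mul_le_card_of_maps_to hmaps
    ⟨0, by simp⟩ hcard'
  set X := S.filter fun x => κ x = k with hX
  let w : ℕ := k % 2 ^ a + 2 ^ (a + ℓ) * (k / 2 ^ a)
  have hw : ∀ x ∈ X, x = w + 2 ^ a * (x / 2 ^ a % 2 ^ ℓ) := by
    intro x hx
    have h1 := (mem_filter.1 hx).2
    simp only [w]
    rw [← h1, hκ1, hκ2]
    exact decomp x a ℓ
  let U := X.image fun x => x / 2 ^ a % 2 ^ ℓ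
  have hUcard : U.card = X.card := by
    apply card_image_of_injOn
    intro x hx x' hx' h
    rw [hw x hx, hw x' hx']
    simp only at h
    rw [h]
  have h2 := two_to_one n j a w hj U (fun u hu => by
    obtain ⟨x, -, rfl⟩ := mem_image.1 hu
    exact Nat.mod_lt _ (by positivity))
  have himage : (U.image fun u => seg ((w + 2 ^ a * u) * sparse n) (a + ℓ) ℓ) =
      X.image fun x => seg (x * sparse n) (a + ℓ) ℓ := by
    simp only [U]
    rw [image_image]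
    apply image_congr
    intro x hx
    simp only [Function.comp]
    rw [← hw x hx]
  rw [himage] at h2
  have h3 := count_le C col a (a + ℓ) ℓ (by omega) (by omega) (sparse n) X (by
    intro x hx x' hx' i _ hi
    have e1 := (mem_filter.1 hx).2
    have e2 := (mem_filter.1 hx').2
    rcases hi with hi | hi
    · have e3 : x % 2 ^ a = x' % 2 ^ a := by rw [← hκ1 x, ← hκ1 x', e1, e2]
      have e4 := Nat.testBit_mod_two_pow x a i
      have e5 := Nat.testBit_mod_two_pow x' a i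
      rw [e3, e5] at e4
      simpa [hi] using e4.symm
    · have e3 : x / 2 ^ (a + ℓ) = x' / 2 ^ (a + ℓ) := by rw [← hκ2 x, ← hκ2 x', e1, e2]
      have e4 := Nat.testBit_div_two_pow x (i - (a + ℓ)) (n := a + ℓ)
      have e5 := Nat.testBit_div_two_pow x' (i - (a + ℓ)) (n := a + ℓ)
      rw [e3, e5] at e4
      have e6 : i - (a + ℓ) + (a + ℓ) = i := by omega
      rw [e6] at e4
      exact e4.symm)
    (fun x hx => (hS x (mem_filter.1 hx).1).2)
  rw [hUcard] at h2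
  have h4 : 2 ^ (ℓ - q) ≤ 2 ^ ((cut C col a (a + ℓ) (a + ℓ + ℓ)).ncard + 1) := by
    calc 2 ^ (ℓ - q) ≤ X.card := hk
      _ ≤ _ := h2
      _ ≤ 2 * 2 ^ (cut C col a (a + ℓ) (a + ℓ + ℓ)).ncard := by omega
      _ = _ := by rw [pow_succ]; ring
  have h5 := (Nat.pow_le_pow_iff_right (by norm_num : 1 < 2)).1 h4
  omega

end Pool.Agent.W2helper86.MF
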