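import Mathlib

/-!
# Circuits for multiplication whose gates are placed in columns

Definitions for `MP_22d2c8_lc.MultiplicationFlow`.
-/

set_option autoImplicit false

open Finset

namespace Pool.Agent.W2helper86.MF

/-- The vertices of a circuit with two operands of `n` bits and the set `G` of gates: bit `i` of the
first operand, bit `i` of the second operand, gates. -/
abbrev Vertex (n : ℕ) (G : Type) : Type := Fin n ⊕ Fin n ⊕ G

/-- A circuit with two operands of `n` bits and `n` outputs: every gate computes an arbitrary Boolean
function of its predecessors, any number of them; the rank of the gates rises along the wires. -/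
structure Circuit (n : ℕ) (G : Type) where
  /-- The predecessors of a gate. -/
  preds : G → Finset (Vertex n G)
  /-- The function computed by a gate. -/
  op : (g : G) → (preds g → Bool) → Bool
  /-- The rank of a gate. -/
  rank : G → ℕ
  /-- The graph is acyclic. -/
  acyclic : ∀ g h, Sum.inr (Sum.inr h) ∈ preds g → rank h < rank g
  /-- The vertex whose value is output number `i`. -/
  out : Fin n → Vertex n G

variable {n : ℕ} {G : Type}

namespace Circuit

/-- The value of a gate on the operands `x`, `y` (their binary digits). -/
def gateValue (C : Circuit n G) (x y : ℕ) (g : G) : Bool :=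
  C.op g fun u => match h : u.1 with
    | Sum.inl i => x.testBit i
    | Sum.inr (Sum.inl i) => y.testBit i
    | Sum.inr (Sum.inr k) => C.gateValue x y k
termination_by C.rank g
decreasing_by exact C.acyclic _ _ (h ▸ u.2)

/-- The value of a vertex on the operands `x`, `y`. -/
def value (C : Circuit n G) (x y : ℕ) : Vertex n G → Bool
  | Sum.inl i => x.testBit i
  | Sum.inr (Sum.inl i) => y.testBit i
  | Sum.inr (Sum.inr k) => C.gateValue x y k

/-- On the operands `x`, `y` the outputs are the `n` lowest binary digits of the product `x y`. -/
def Multiplies (C : Circuit n G) (x y : ℕ) : Prop :=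
  ∀ i : Fin n, C.value x y (C.out i) = (x * y).testBit i

/-- The number of wires. -/
def wires [Fintype G] (C : Circuit n G) : ℕ := ∑ g, (C.preds g).card

/-- The column of a vertex: bit `i` of an operand is in column `i`, the gate `g` in column `col g`. -/
def column (col : G → ℕ) : Vertex n G → ℕ
  | Sum.inl i => i
  | Sum.inr (Sum.inl i) => i
  | Sum.inr (Sum.inr g) => col g

/-- The vertices whose values are sent down over the boundary between the columns `p - 1` and `p`:
the vertices in a column `≥ p` with a wire to a gate in a column `< p`, or which are the output
number `i` for some `i < p`. -/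
def down (C : Circuit n G) (col : G → ℕ) (p : ℕ) : Set (Vertex n G) :=
  {u | p ≤ column col u ∧ ((∃ g, u ∈ C.preds g ∧ col g < p) ∨ ∃ i : Fin n, C.out i = u ∧ (i : ℕ) < p)}

/-- The downward traffic: the total number of the values sent down over the `n` boundaries. -/
noncomputable def traffic (C : Circuit n G) (col : G → ℕ) : ℕ := ∑ p ∈ range n, (C.down col p).ncard

end Circuit

/-- The number whose binary digits `1` are at the places `1, 2, 4, 8, …` below `n`. -/
def sparse (n : ℕ) : ℕ := ∑ j ∈ range (Nat.clog 2 n), 2 ^ 2 ^ j

end Pool.Agent.W2helper86.MF
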