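import Pool.Agent.W2helper86.MF.Defs

/-!
# The information which passes between two adjacent intervals of columns
-/

set_option autoImplicit false

open Finset

namespace Pool.Agent.W2helper86.MF

open Circuit

variable {n : ℕ} {G : Type}

theorem gateValue_eq (C : Circuit n G) (x y : ℕ) (g : G) :
    C.gateValue x y g = C.op g fun u => C.value x y u.1 := by
  rw [gateValue]
  congr 1
  funext u
  rcases u with ⟨u, hu⟩
  rcases u with i | i | k <;> rfl

/-- The vertices in the columns `[a, b)` whose values are sent to the columns `[b, c)`. -/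
def fwd (C : Circuit n G) (col : G → ℕ) (a b c : ℕ) : Set (Vertex n G) :=
  {u | (a ≤ column col u ∧ column col u < b) ∧
    ((∃ g, u ∈ C.preds g ∧ b ≤ col g ∧ col g < c) ∨
      ∃ i : Fin n, C.out i = u ∧ b ≤ (i : ℕ) ∧ (i : ℕ) < c)}

/-- The values which determine the outputs in the columns `[b, c)`. -/
def cut (C : Circuit n G) (col : G → ℕ) (a b c : ℕ) : Set (Vertex n G) :=
  fwd C col a b c ∪ (C.down col a ∪ C.down col c)

theorem value_eq (C : Circuit n G) (col : G → ℕ) (a b c : ℕ) (hab : a ≤ b) (hbc : b ≤ c)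
    (x x' y : ℕ) (hx : ∀ i < n, (i < a ∨ b ≤ i) → x.testBit i = x'.testBit i)
    (hT : ∀ u ∈ cut C col a b c, C.value x y u = C.value x' y u) :
    ∀ r : ℕ, ∀ u : Vertex n G, (∀ g, u = Sum.inr (Sum.inr g) → C.rank g < r) →
      (column col u < a ∨ (b ≤ column col u ∧ column col u < c)) →
      C.value x y u = C.value x' y u := by
  intro r
  induction r with
  | zero =>
    rintro (i | i | g) hr hu
    · exact hx i i.2 (by simp only [column] at hu; omega)
    · rfl
    · exact absurd (hr g rfl) (by omega)
  | succ r ih =>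
    rintro (i | i | g) hr hu
    · exact hx i i.2 (by simp only [column] at hu; omega)
    · rfl
    · show C.gateValue x y g = C.gateValue x' y g
      have hg : C.rank g < r + 1 := hr g rfl
      have hcol : col g < a ∨ (b ≤ col g ∧ col g < c) := hu
      rw [gateValue_eq, gateValue_eq]
      congr 1
      funext u
      rcases u with ⟨u, hug⟩
      show C.value x y u = C.value x' y u
      have hrank : ∀ h, u = Sum.inr (Sum.inr h) → C.rank h < r := by
        rintro h rfl
        have := C.acyclic g h hug
        omega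
      by_cases h1 : column col u < a
      · exact ih u hrank (Or.inl h1)
      by_cases h2 : column col u < b
      · rcases hcol with hcol | hcol
        · exact hT u (Or.inr (Or.inl ⟨by omega, Or.inl ⟨g, hug, hcol⟩⟩))
        · exact hT u (Or.inl ⟨⟨by omega, h2⟩, Or.inl ⟨g, hug, hcol.1, hcol.2⟩⟩)
      by_cases h3 : column col u < c
      · exact ih u hrank (Or.inr ⟨by omega, h3⟩)
      · exact hT u (Or.inr (Or.inr ⟨by omega, Or.inl ⟨g, hug, by omega⟩⟩))

/-- The outputs in the columns `[b, c)` are determined by the values in the cut. -/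
theorem out_eq (C : Circuit n G) (col : G → ℕ) (a b c : ℕ) (hab : a ≤ b) (hbc : b ≤ c)
    (x x' y : ℕ) (hx : ∀ i < n, (i < a ∨ b ≤ i) → x.testBit i = x'.testBit i)
    (hT : ∀ u ∈ cut C col a b c, C.value x y u = C.value x' y u) (i : Fin n) (hbi : b ≤ (i : ℕ))
    (hic : (i : ℕ) < c) : C.value x y (C.out i) = C.value x' y (C.out i) := by
  have key : (column col (C.out i) < a ∨ (b ≤ column col (C.out i) ∧ column col (C.out i) < c)) →
      C.value x y (C.out i) = C.value x' y (C.out i) := by
    intro h
    rcases hu : C.out i with j | j | g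
    · rw [hu] at h
      exact value_eq C col a b c hab hbc x x' y hx hT 0 _ (fun g hg => by simp at hg) h
    · rw [hu] at h
      exact value_eq C col a b c hab hbc x x' y hx hT 0 _ (fun g hg => by simp at hg) h
    · rw [hu] at h
      refine value_eq C col a b c hab hbc x x' y hx hT (C.rank g + 1) _ (fun h hh => ?_) h
      simp only [Sum.inr.injEq] at hh
      subst hh
      omega
  by_cases h1 : column col (C.out i) < a
  · exact key (Or.inl h1)
  by_cases h2 : column col (C.out i) < b
  · exact hT _ (Or.inl ⟨⟨by omega, h2⟩, Or.inr ⟨i, rfl, hbi, hic⟩⟩)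
  by_cases h3 : column col (C.out i) < c
  · exact key (Or.inr ⟨by omega, h3⟩)
  · exact hT _ (Or.inr (Or.inr ⟨by omega, Or.inr ⟨i, rfl, hic⟩⟩))

/-- The bits `[b, c)` of a number. -/
def seg (z b ℓ : ℕ) : ℕ := z / 2 ^ b % 2 ^ ℓ

theorem seg_testBit (z b ℓ i : ℕ) : (seg z b ℓ).testBit i = (decide (i < ℓ) && z.testBit (b + i)) := by
  unfold seg
  rw [Nat.testBit_mod_two_pow, Nat.testBit_div_two_pow, Nat.add_comm]

theorem seg_congr {z z' b ℓ : ℕ} (h : ∀ i, b ≤ i → i < b + ℓ → z.testBit i = z'.testBit i) :
    seg z b ℓ = seg z' b ℓ := by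
  apply Nat.eq_of_testBit_eq
  intro i
  rw [seg_testBit, seg_testBit]
  by_cases hi : i < ℓ
  · rw [h (b + i) (by omega) (by omega)]
  · simp [hi]

/-- Counting: if the products of the numbers in `X` with `y` are computed and the numbers in `X` differ
only in the bits `[a, b)`, then the number of the different segments `[b, b + ℓ)` of the products is at
most `2` to the size of the cut. -/
theorem count_le [Finite G] (C : Circuit n G) (col : G → ℕ) (a b ℓ : ℕ) (hab : a ≤ b)
    (hbn : b + ℓ ≤ n) (y : ℕ) (X : Finset ℕ)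
    (hX : ∀ x ∈ X, ∀ x' ∈ X, ∀ i < n, (i < a ∨ b ≤ i) → x.testBit i = x'.testBit i)
    (hC : ∀ x ∈ X, C.Multiplies x y) :
    (X.image fun x => seg (x * y) b ℓ).card ≤ 2 ^ (cut C col a b (b + ℓ)).ncard := by
  classical
  have hfin : (cut C col a b (b + ℓ)).Finite := Set.toFinite _
  have := Fintype.ofFinite (cut C col a b (b + ℓ))
  choose! pick hpick using fun (z : ℕ) (hz : z ∈ X.image fun x => seg (x * y) b ℓ) =>
    mem_image.1 hz
  let φ : ℕ → (cut C col a b (b + ℓ) → Bool) := fun z u => C.value (pick z) y u.1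
  have hinj : Set.InjOn φ (X.image fun x => seg (x * y) b ℓ) := by
    intro z hz z' hz' h
    obtain ⟨h1, h2⟩ := hpick z hz
    obtain ⟨h3, h4⟩ := hpick z' hz'
    rw [← h2, ← h4]
    refine seg_congr fun i hi hi' => ?_
    have h5 := hC _ h1 ⟨i, by omega⟩
    have h6 := hC _ h3 ⟨i, by omega⟩
    rw [← h5, ← h6]
    refine out_eq C col a b (b + ℓ) hab (by omega) _ _ y (hX _ h1 _ h3) (fun u hu => ?_) _ hi hi'
    exact congrFun h ⟨u, hu⟩
  have h1 : (X.image fun x => seg (x * y) b ℓ).card ≤
      (univ : Finset (cut C col a b (b + ℓ) → Bool)).card :=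
    card_le_card_of_injOn φ (fun _ _ => mem_coe.2 (mem_univ _)) hinj
  rw [card_univ, Fintype.card_fun, Fintype.card_bool] at h1
  rwa [Set.ncard_eq_toFinset_card', Set.toFinset_card]

end Pool.Agent.W2helper86.MF
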