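import Pool.Agent.W2helper86.MF.Cut

/-!
# Summation over all shifted dyadic pairs of intervals
-/

set_option autoImplicit false

open Finset

namespace Pool.Agent.W2helper86.MF

open Circuit

variable {n : ℕ} {G : Type}

/-- The left end of the pair number `t` of adjacent intervals of length `2 ^ j`, shifted by `r`. -/
def lft (r : ℕ) (p : (_ : ℕ) × ℕ) : ℕ := r + 2 * p.2 * 2 ^ p.1

/-- `x` is in the left and `y` in the right interval of the pair. -/
def Crosses (r x y : ℕ) (p : (_ : ℕ) × ℕ) : Prop :=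
  (lft r p ≤ x ∧ x < lft r p + 2 ^ p.1) ∧ (lft r p + 2 ^ p.1 ≤ y ∧ y < lft r p + 2 ^ p.1 + 2 ^ p.1)

theorem crosses_div {r x y j t : ℕ} (h : Crosses r x y ⟨j, t⟩) :
    (x - r) / 2 ^ j = 2 * t ∧ (y - r) / 2 ^ j = 2 * t + 1 := by
  obtain ⟨⟨h1, h2⟩, h3, h4⟩ := h
  simp only [lft] at h1 h2 h3 h4
  have e1 : (2 * t + 1) * 2 ^ j = 2 * t * 2 ^ j + 2 ^ j := by ring
  have e2 : (2 * t + 1 + 1) * 2 ^ j = 2 * t * 2 ^ j + 2 ^ j + 2 ^ j := by ring
  constructor
  · apply Nat.div_eq_of_lt_le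
    · omega
    · rw [e1]; omega
  · apply Nat.div_eq_of_lt_le
    · rw [e1]; omega
    · rw [e2]; omega

theorem crosses_le {r x y j t j' t' : ℕ} (h : Crosses r x y ⟨j, t⟩) (h' : Crosses r x y ⟨j', t'⟩) :
    j' ≤ j := by
  by_contra hlt
  obtain ⟨d, rfl⟩ := Nat.exists_eq_add_of_lt (not_le.1 hlt)
  obtain ⟨h1, h2⟩ := crosses_div h
  obtain ⟨h3, h4⟩ := crosses_div h'
  have e : (2 : ℕ) ^ (j + d + 1) = 2 ^ j * 2 * 2 ^ d := by ring
  rw [e, ← Nat.div_div_eq_div_mul, ← Nat.div_div_eq_div_mul, h1] at h3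
  rw [e, ← Nat.div_div_eq_div_mul, ← Nat.div_div_eq_div_mul, h2] at h4
  have e1 : 2 * t / 2 = t := by omega
  have e2 : (2 * t + 1) / 2 = t := by omega
  rw [e1] at h3
  rw [e2] at h4
  omega

theorem crosses_unique {r x y : ℕ} {p p' : (_ : ℕ) × ℕ} (h : Crosses r x y p)
    (h' : Crosses r x y p') : p = p' := by
  obtain ⟨j, t⟩ := p
  obtain ⟨j', t'⟩ := p'
  have h1 : j = j' := le_antisymm (crosses_le h' h) (crosses_le h h')
  subst h1
  have h2 := (crosses_div h).1
  have h3 := (crosses_div h').1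
  have h4 : t = t' := by omega
  rw [h4]

/-- The pairs of the levels `J ≤ j < m`. -/
def pairs (J m : ℕ) : Finset ((_ : ℕ) × ℕ) := (Ico J m).sigma fun j => range (2 ^ (m - 1 - j))

open Classical in
theorem fwd_le [Fintype G] (C : Circuit n G) (col : G → ℕ) (r : ℕ) (p : (_ : ℕ) × ℕ) :
    (fwd C col (lft r p) (lft r p + 2 ^ p.1) (lft r p + 2 ^ p.1 + 2 ^ p.1)).ncard ≤
      (((univ : Finset G).sigma fun g => C.preds g).filter fun e =>
        Crosses r (column col e.2) (col e.1) p).card +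
      ((univ : Finset (Fin n)).filter fun i => Crosses r (column col (C.out i)) i p).card := by
  set E := (((univ : Finset G).sigma fun g => C.preds g).filter fun e =>
        Crosses r (column col e.2) (col e.1) p) with hE
  set F := ((univ : Finset (Fin n)).filter fun i => Crosses r (column col (C.out i)) i p) with hF
  have hsub : fwd C col (lft r p) (lft r p + 2 ^ p.1) (lft r p + 2 ^ p.1 + 2 ^ p.1) ⊆
      ((E.image fun e => e.2) ∪ F.image C.out : Finset (Vertex n G)) := by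
    rintro u ⟨h1, ⟨g, h2, h3, h4⟩ | ⟨i, rfl, h3, h4⟩⟩
    · rw [mem_coe, mem_union]
      left
      rw [mem_image]
      exact ⟨⟨g, u⟩, mem_filter.2 ⟨mem_sigma.2 ⟨mem_univ _, h2⟩, h1, h3, h4⟩, rfl⟩
    · rw [mem_coe, mem_union]
      right
      rw [mem_image]
      exact ⟨i, mem_filter.2 ⟨mem_univ _, h1, h3, h4⟩, rfl⟩
  calc _ ≤ (((E.image fun e => e.2) ∪ F.image C.out : Finset (Vertex n G)) : Set (Vertex n G)).ncard :=
        Set.ncard_le_ncard hsub (Finset.finite_toSet _)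
    _ = ((E.image fun e => e.2) ∪ F.image C.out).card := Set.ncard_coe_finset _
    _ ≤ _ := (card_union_le _ _).trans (Nat.add_le_add card_image_le card_image_le)

theorem fwd_sum [Fintype G] (C : Circuit n G) (col : G → ℕ) (r : ℕ) (I : Finset ((_ : ℕ) × ℕ)) :
    ∑ p ∈ I, (fwd C col (lft r p) (lft r p + 2 ^ p.1) (lft r p + 2 ^ p.1 + 2 ^ p.1)).ncard ≤
      C.wires + n := by
  classical
  calc _ ≤ ∑ p ∈ I, ((((univ : Finset G).sigma fun g => C.preds g).filter fun e =>
        Crosses r (column col e.2) (col e.1) p).card +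
      ((univ : Finset (Fin n)).filter fun i => Crosses r (column col (C.out i)) i p).card) :=
        sum_le_sum fun p _ => fwd_le C col r p
    _ = ∑ e ∈ ((univ : Finset G).sigma fun g => C.preds g),
          (I.filter fun p => Crosses r (column col e.2) (col e.1) p).card +
        ∑ i : Fin n, (I.filter fun p => Crosses r (column col (C.out i)) i p).card := by
        rw [sum_add_distrib]
        simp only [card_filter]
        rw [sum_comm]
        congr 1
        rw [sum_comm]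
    _ ≤ ∑ e ∈ ((univ : Finset G).sigma fun g => C.preds g), 1 + ∑ i : Fin n, 1 := by
        apply Nat.add_le_add
        · apply sum_le_sum
          intro e _
          apply card_le_one.2
          intro p hp p' hp'
          exact crosses_unique (mem_filter.1 hp).2 (mem_filter.1 hp').2
        · apply sum_le_sum
          intro i _
          apply card_le_one.2
          intro p hp p' hp'
          exact crosses_unique (mem_filter.1 hp).2 (mem_filter.1 hp').2
    _ = C.wires + n := by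
        rw [← card_eq_sum_ones, card_sigma, wires]
        simp

theorem down_sum (C : Circuit n G) (col : G → ℕ) (s N : ℕ) (h : s + N ≤ n) :
    ∑ r ∈ range N, (C.down col (s + r)).ncard ≤ C.traffic col := by
  unfold traffic
  have h1 := sum_Ico_eq_sum_range (fun p => (C.down col p).ncard) s (s + N)
  rw [Nat.add_sub_cancel_left] at h1
  rw [← h1]
  apply sum_le_sum_of_subset
  intro p hp
  rw [mem_Ico] at hp
  rw [mem_range]
  omega

theorem pairs_card (J m : ℕ) : (pairs J m).card * 2 ^ J ≤ 2 ^ m := by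
  have key : ∀ d : ℕ, ∑ j ∈ Ico J (J + d), 2 ^ (J + d - 1 - j) + 1 = 2 ^ d := by
    intro d
    induction d with
    | zero => simp
    | succ d ih =>
      rw [Finset.sum_Ico_eq_sum_range] at ih ⊢
      rw [Nat.add_sub_cancel_left] at ih ⊢
      rw [Finset.sum_range_succ']
      have h1 : ∀ i ∈ range d, 2 ^ (J + (d + 1) - 1 - (J + (i + 1))) = 2 ^ (J + d - 1 - (J + i)) := by
        intro i _
        congr 1
        omega
      rw [sum_congr rfl h1]
      have h2 : J + (d + 1) - 1 - (J + 0) = d := by omega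
      rw [h2, pow_succ]
      omega
  unfold pairs
  rw [card_sigma]
  simp only [card_range]
  rcases Nat.lt_or_ge m J with h | h
  · rw [Ico_eq_empty (by omega)]
    simp
  · obtain ⟨d, rfl⟩ := Nat.exists_eq_add_of_le h
    have := key d
    rw [pow_add, Nat.mul_comm]
    apply Nat.mul_le_mul_left
    omega

theorem pairs_sum (J m : ℕ) : 2 * ∑ p ∈ pairs J m, 2 ^ p.1 = (m - J) * 2 ^ m := by
  unfold pairs
  rw [sum_sigma]
  simp only [sum_const, card_range, smul_eq_mul]
  have h1 : ∀ j ∈ Ico J m, 2 ^ (m - 1 - j) * 2 ^ j = 2 ^ (m - 1) := by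
    intro j hj
    rw [mem_Ico] at hj
    rw [← pow_add]
    congr 1
    omega
  rw [sum_congr rfl h1, sum_const, Nat.card_Ico, smul_eq_mul]
  rcases Nat.eq_zero_or_pos m with rfl | hm
  · simp
  · obtain ⟨d, rfl⟩ := Nat.exists_eq_add_of_le hm
    rw [Nat.add_sub_cancel_left, Nat.add_comm 1 d, pow_succ]
    ring

/-- The inequality between numbers. -/
theorem main_nat [Fintype G] (C : Circuit n G) (col : G → ℕ) (q J m : ℕ) (hm : 2 ^ (m + 1) ≤ n)
    (S : Finset ℕ) (hS : ∀ x ∈ S, x < 2 ^ n ∧ C.Multiplies x (sparse n))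
    (hcard : 2 ^ n ≤ 2 ^ q * S.card) :
    2 ^ m * ∑ p ∈ pairs J m, 2 ^ p.1 ≤
      (pairs J m).card * (2 ^ m * (q + 1) + 2 * C.traffic col) + 2 ^ m * (C.wires + n) := by
  have hN : 2 ^ m + 2 ^ m ≤ n := by rw [pow_succ] at hm; omega
  have hlog : m + 1 ≤ Nat.clog 2 n := by
    have h1 : Nat.clog 2 (2 ^ (m + 1)) ≤ Nat.clog 2 n := Nat.clog_mono_right 2 hm
    rwa [Nat.clog_pow 2 _ (by norm_num)] at h1
  have hlft : ∀ p ∈ pairs J m, ∀ s, lft s p + 2 ^ p.1 + 2 ^ p.1 ≤ s + 2 ^ m := by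
    intro p hp s
    obtain ⟨h1, h2⟩ := mem_sigma.1 hp
    rw [mem_Ico] at h1
    rw [mem_range] at h2
    unfold lft
    have h3 : 2 * 2 ^ p.1 * (p.2 + 1) ≤ 2 * 2 ^ p.1 * 2 ^ (m - 1 - p.1) := Nat.mul_le_mul_left _ h2
    have h4 : 2 * 2 ^ p.1 * 2 ^ (m - 1 - p.1) = 2 ^ m := by
      rw [← pow_succ', ← pow_add]
      congr 1
      omega
    rw [h4] at h3
    calc s + 2 * p.2 * 2 ^ p.1 + 2 ^ p.1 + 2 ^ p.1 = s + 2 * 2 ^ p.1 * (p.2 + 1) := by ring
      _ ≤ s + 2 ^ m := by omega
  have h1 : ∀ r ∈ range (2 ^ m), ∀ p ∈ pairs J m, 2 ^ p.1 ≤ (q + 1) +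
      (fwd C col (lft r p) (lft r p + 2 ^ p.1) (lft r p + 2 ^ p.1 + 2 ^ p.1)).ncard +
      ((C.down col (lft 0 p + r)).ncard + (C.down col (lft 0 p + 2 ^ p.1 + 2 ^ p.1 + r)).ncard) := by
    intro r hr p hp
    rw [mem_range] at hr
    have h2 := hlft p hp r
    have h3 : p.1 < m := by
      have := (mem_sigma.1 hp).1
      rw [mem_Ico] at this
      exact this.2
    have h4 := cut_ge C col q p.1 (lft r p) (by omega) (by omega) S hS hcard
    have h5 : (cut C col (lft r p) (lft r p + 2 ^ p.1) (lft r p + 2 ^ p.1 + 2 ^ p.1)).ncard ≤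
        (fwd C col (lft r p) (lft r p + 2 ^ p.1) (lft r p + 2 ^ p.1 + 2 ^ p.1)).ncard +
        ((C.down col (lft r p)).ncard + (C.down col (lft r p + 2 ^ p.1 + 2 ^ p.1)).ncard) := by
      unfold cut
      exact (Set.ncard_union_le _ _).trans (Nat.add_le_add_left (Set.ncard_union_le _ _) _)
    have h6 : lft r p = lft 0 p + r := by unfold lft; omega
    have h7 : lft r p + 2 ^ p.1 + 2 ^ p.1 = lft 0 p + 2 ^ p.1 + 2 ^ p.1 + r := by omega
    rw [← h6, ← h7]
    omega
  have h2 := sum_le_sum fun r hr => sum_le_sum (h1 r hr)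
  rw [sum_const, card_range, smul_eq_mul] at h2
  refine h2.trans ?_
  simp only [sum_add_distrib]
  have h3 : ∑ r ∈ range (2 ^ m), ∑ p ∈ pairs J m,
      (fwd C col (lft r p) (lft r p + 2 ^ p.1) (lft r p + 2 ^ p.1 + 2 ^ p.1)).ncard ≤
      2 ^ m * (C.wires + n) := by
    have := sum_le_sum fun r (_ : r ∈ range (2 ^ m)) => fwd_sum C col r (pairs J m)
    rwa [sum_const, card_range, smul_eq_mul] at this
  have h4 : ∑ r ∈ range (2 ^ m), ∑ p ∈ pairs J m, (C.down col (lft 0 p + r)).ncard ≤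
      (pairs J m).card * C.traffic col := by
    rw [sum_comm]
    have := sum_le_sum fun p (hp : p ∈ pairs J m) => down_sum C col (lft 0 p) (2 ^ m) (by
      have := hlft p hp 0
      have hpos : 0 < 2 ^ p.1 := by positivity
      omega)
    rwa [sum_const, smul_eq_mul] at this
  have h5 : ∑ r ∈ range (2 ^ m), ∑ p ∈ pairs J m,
      (C.down col (lft 0 p + 2 ^ p.1 + 2 ^ p.1 + r)).ncard ≤ (pairs J m).card * C.traffic col := by
    rw [sum_comm]
    have := sum_le_sum fun p (hp : p ∈ pairs J m) =>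
      down_sum C col (lft 0 p + 2 ^ p.1 + 2 ^ p.1) (2 ^ m) (by
        have := hlft p hp 0
        have hpos : 0 < 2 ^ p.1 := by positivity
        omega)
    rwa [sum_const, smul_eq_mul] at this
  have h6 : ∑ r ∈ range (2 ^ m), ∑ p ∈ pairs J m, q + ∑ r ∈ range (2 ^ m), ∑ p ∈ pairs J m, 1 =
      (pairs J m).card * (2 ^ m * (q + 1)) := by
    simp only [sum_const, card_range, smul_eq_mul]
    ring
  calc _ ≤ (pairs J m).card * (2 ^ m * (q + 1)) + 2 ^ m * (C.wires + n) +
        ((pairs J m).card * C.traffic col + (pairs J m).card * C.traffic col) := by omega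
    _ = _ := by ring

/-- **The lower bound.** -/
theorem main_real [Fintype G] (C : Circuit n G) (col : G → ℕ) (q : ℕ) (K : ℝ) (hK : 0 ≤ K)
    (S : Finset ℕ) (hS : ∀ x ∈ S, x < 2 ^ n ∧ C.Multiplies x (sparse n))
    (hcard : 2 ^ n ≤ 2 ^ q * S.card) (hT : (C.traffic col : ℝ) ≤ K * n) :
    (n : ℝ) / 8 * (Real.logb 2 (n / (K + q + 1)) - 16) ≤ C.wires := by
  have hW : (0 : ℝ) ≤ C.wires := Nat.cast_nonneg _
  have hKq : (1 : ℝ) ≤ K + q + 1 := by
    have : (0 : ℝ) ≤ q := Nat.cast_nonneg _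
    linarith
  rcases Nat.lt_or_ge n 2 with hn | hn
  · have h1 : Real.logb 2 (n / (K + q + 1)) ≤ 0 := by
      apply Real.logb_nonpos (by norm_num) (by positivity)
      rw [div_le_one (by positivity)]
      have : (n : ℝ) ≤ 1 := by exact_mod_cast Nat.lt_succ_iff.1 hn
      linarith
    have h2 : (n : ℝ) / 8 * (Real.logb 2 (n / (K + q + 1)) - 16) ≤ 0 :=
      mul_nonpos_of_nonneg_of_nonpos (by positivity) (by linarith)
    linarith
  have hnpos : (0 : ℝ) < n := by
    have : 0 < n := by omega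
    exact_mod_cast this
  by_cases hR : Real.logb 2 (n / (K + q + 1)) - 16 ≤ 0
  · have h2 : (n : ℝ) / 8 * (Real.logb 2 (n / (K + q + 1)) - 16) ≤ 0 :=
      mul_nonpos_of_nonneg_of_nonpos (by positivity) hR
    linarith
  have hlog1 : 1 ≤ Nat.log 2 n := Nat.le_log_of_pow_le (by norm_num) (by simpa using hn)
  obtain ⟨m, hm⟩ := Nat.exists_eq_add_of_le' hlog1
  have hm1 : 2 ^ (m + 1) ≤ n := by
    rw [← hm]
    exact Nat.pow_log_le_self 2 (by omega)
  have hm2 : n < 2 ^ (m + 2) := by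
    have := Nat.lt_pow_succ_log_self (b := 2) (by norm_num) n
    rwa [hm] at this
  set Q : ℝ := q + 1 + 8 * K with hQ
  have hQ1 : 1 ≤ Q := by
    have : (0 : ℝ) ≤ q := Nat.cast_nonneg _
    rw [hQ]
    linarith
  set J := ⌈Real.logb 2 Q⌉₊ with hJ
  have hJ1 : Q ≤ 2 ^ J := by
    have h1 : Real.logb 2 Q ≤ J := Nat.le_ceil _
    rw [Real.logb_le_iff_le_rpow (by norm_num) (by linarith)] at h1
    rwa [Real.rpow_natCast] at h1
  have hJ2 : (J : ℝ) < Real.logb 2 Q + 1 :=
    Nat.ceil_lt_add_one (Real.logb_nonneg (by norm_num) hQ1)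
  have h1 := main_nat C col q J m hm1 S hS hcard
  have h2 := pairs_sum J m
  have h3 := pairs_card J m
  set N : ℝ := 2 ^ m with hN
  have hNpos : 0 < N := by positivity
  have h1' : N * (∑ p ∈ pairs J m, 2 ^ p.1 : ℕ) ≤ ((pairs J m).card : ℝ) *
      (N * (q + 1) + 2 * C.traffic col) + N * (C.wires + n) := by
    rw [hN]
    exact_mod_cast h1
  have h2' : 2 * ((∑ p ∈ pairs J m, 2 ^ p.1 : ℕ) : ℝ) = ((m - J : ℕ) : ℝ) * N := by
    rw [hN]
    exact_mod_cast h2
  have h3' : ((pairs J m).card : ℝ) * 2 ^ J ≤ N := by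
    rw [hN]
    exact_mod_cast h3
  have hmJ : (m : ℝ) - J ≤ ((m - J : ℕ) : ℝ) := by
    rw [sub_le_iff_le_add]
    have : m ≤ (m - J) + J := by omega
    exact_mod_cast this
  have hn4 : (n : ℝ) ≤ 4 * N := by
    have : n ≤ 2 ^ (m + 2) := hm2.le
    have h5 : (n : ℝ) ≤ 2 ^ (m + 2) := by exact_mod_cast this
    rw [pow_add] at h5
    rw [hN]
    linarith
  have h4 : ((pairs J m).card : ℝ) * (N * (q + 1) + 2 * C.traffic col) ≤ N * N := by
    have h5 : N * (q + 1) + 2 * C.traffic col ≤ N * Q := by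
      have h6 : K * n ≤ K * (4 * N) := mul_le_mul_of_nonneg_left hn4 hK
      rw [hQ]
      nlinarith
    have h6 : N * Q ≤ N * 2 ^ J := mul_le_mul_of_nonneg_left hJ1 hNpos.le
    calc ((pairs J m).card : ℝ) * (N * (q + 1) + 2 * C.traffic col) ≤
          ((pairs J m).card : ℝ) * (N * 2 ^ J) :=
          mul_le_mul_of_nonneg_left (h5.trans h6) (Nat.cast_nonneg _)
      _ = N * (((pairs J m).card : ℝ) * 2 ^ J) := by ring
      _ ≤ N * N := mul_le_mul_of_nonneg_left h3' hNpos.le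
  have h5 : N / 2 * (m - J - 10) ≤ C.wires := by
    have h6 : N * (∑ p ∈ pairs J m, 2 ^ p.1 : ℕ) ≤ N * (N + (C.wires + n)) := by
      calc _ ≤ _ := h1'
        _ ≤ N * N + N * (C.wires + n) := by linarith
        _ = _ := by ring
    have h7 := le_of_mul_le_mul_left h6 hNpos
    have h8 : ((m : ℝ) - J) * N ≤ ((m - J : ℕ) : ℝ) * N := mul_le_mul_of_nonneg_right hmJ hNpos.le
    nlinarith
  have h6 : Real.logb 2 (n / (K + q + 1)) - 16 ≤ m - J - 10 := by
    have h7 : Real.logb 2 n < m + 2 := by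
      rw [Real.logb_lt_iff_lt_rpow (by norm_num) hnpos]
      have : ((m : ℝ) + 2) = ((m + 2 : ℕ) : ℝ) := by push_cast; ring
      rw [this, Real.rpow_natCast]
      exact_mod_cast hm2
    have h8 : Real.logb 2 Q ≤ 3 + Real.logb 2 (K + q + 1) := by
      have h9 : (3 : ℝ) = Real.logb 2 8 := by
        rw [show (8 : ℝ) = 2 ^ (3 : ℝ) by norm_num, Real.logb_rpow (by norm_num) (by norm_num)]
      rw [h9, ← Real.logb_mul (by norm_num) (by positivity)]
      apply Real.logb_le_logb_of_le (by norm_num) (by linarith)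
      rw [hQ]
      have : (0 : ℝ) ≤ q := Nat.cast_nonneg _
      linarith
    rw [Real.logb_div hnpos.ne' (by positivity)]
    linarith
  have h7 : (n : ℝ) / 8 ≤ N / 2 := by linarith
  calc (n : ℝ) / 8 * (Real.logb 2 (n / (K + q + 1)) - 16) ≤
        N / 2 * (Real.logb 2 (n / (K + q + 1)) - 16) :=
        mul_le_mul_of_nonneg_right h7 (by linarith)
    _ ≤ N / 2 * (m - J - 10) := mul_le_mul_of_nonneg_left h6 (by positivity)
    _ ≤ _ := h5

end Pool.Agent.W2helper86.MF
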